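import Pool.Agent.Helper82.PN.GoalsR

/-! Packet PN-TCEQ: truncated cones. -/

open MeasureTheory Set
open scoped ENNReal
open Pool.Agent.Helper47.AQ
open Pool.Agent.Helper82.PN

noncomputable section

namespace Pool.Agent.Helper52.PN

theorem lift_linear (ι : Type) : IsLinearMap ℝ (lift : (ι → ℝ) → (ι ⊕ Unit → ℝ)) where
  map_add := by
    intro x y
    funext o
    rcases o with i | u <;> simp [lift]
  map_smul := by
    intro c x
    funext o
    rcases o with i | u <;> simp [lift]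

theorem klr_eq {ι : Type} [Fintype ι] (B : Set (ι → ℝ)) (hB : Convex ℝ B) (h0 : (0 : ι → ℝ) ∈ B)
    (a : ℝ) (ha0 : 0 ≤ a) (ha1 : a ≤ 1) : KLR B (fun _ => 0) (tp a) = tc B a := by
  ext z
  constructor
  · rintro ⟨s, ⟨hs0, hs1⟩, ⟨b, hb, hz⟩, hx0, hx1⟩
    obtain ⟨x, hx⟩ : ∃ x, x = z (Sum.inr ()) := ⟨_, rfl⟩
    rw [← hx] at hx0 hx1
    have hx0' : 0 ≤ x := by simpa using hx0
    have hx1' : x ≤ 1 := by
      unfold tp at hx1
      split_ifs at hx1 with h
      · exact hx1.trans (min_le_left _ _)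
      · exact hx1
    have hxs : (1 - a) * x ≤ 1 - s := by
      unfold tp at hx1
      split_ifs at hx1 with h
      · have h1 := hx1.trans (min_le_right _ _)
        have h2 : 0 < 1 - a := by linarith
        rw [le_div_iff₀ h2] at h1
        linarith
      · have h2 : a = 1 := by linarith
        rw [h2]
        linarith
    refine ⟨by rw [← hx]; exact ⟨hx0', hx1'⟩, ?_⟩
    rw [← hx]
    have hsr : s ≤ 1 - (1 - a) * x := by linarith
    rcases eq_or_lt_of_le (hs0.trans hsr) with h | h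
    · refine ⟨b, hb, fun i => ?_⟩
      have h3 : s = 0 := by linarith
      show z (Sum.inl i) = (1 - (1 - a) * x) * b i
      rw [hz, h3, ← h]
    · refine ⟨(s / (1 - (1 - a) * x)) • b, hB.smul_mem_of_zero_mem h0 hb
        ⟨by positivity, by rw [div_le_one h]; exact hsr⟩, fun i => ?_⟩
      show z (Sum.inl i) = (1 - (1 - a) * x) * _
      rw [hz, Pi.smul_apply, smul_eq_mul]
      field_simp
  · rintro ⟨⟨hx0, hx1⟩, b, hb, hz⟩
    obtain ⟨x, hx⟩ : ∃ x, x = z (Sum.inr ()) := ⟨_, rfl⟩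
    rw [← hx] at hx0 hx1
    have h1 : (1 - a) * x ≤ 1 := by nlinarith
    have h2 : 0 ≤ (1 - a) * x := mul_nonneg (by linarith) hx0
    refine ⟨1 - (1 - a) * x, ⟨by linarith, by linarith⟩, ⟨b, hb, fun i => ?_⟩, ?_, ?_⟩
    · rw [hz, hx]
    · rw [← hx]
      simpa using hx0
    · rw [← hx]
      unfold tp
      split_ifs with h
      · apply le_min hx1
        rw [le_div_iff₀ (by linarith)]
        linarith
      · exact hx1

theorem tc_zero {ι : Type} [Fintype ι] (B : Set (ι → ℝ)) (hB : Convex ℝ B)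
    (h0 : (0 : ι → ℝ) ∈ B) :
    tc B 0 = convexHull ℝ (insert (Sum.elim (0 : ι → ℝ) (fun _ => 1)) (lift '' B)) := by
  have hne : (lift '' B).Nonempty := ⟨lift 0, 0, h0, rfl⟩
  have hconv : Convex ℝ (lift '' B) := hB.is_linear_image (lift_linear ι)
  rw [convexHull_insert hne, hconv.convexHull_eq]
  ext z
  rw [mem_convexJoin]
  constructor
  · rintro ⟨⟨hx0, hx1⟩, b, hb, hz⟩
    refine ⟨_, rfl, lift b, ⟨b, hb, rfl⟩, z (Sum.inr ()), 1 - z (Sum.inr ()), hx0,
      by linarith, by ring, ?_⟩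
    funext o
    rcases o with i | u
    · simp only [Pi.add_apply, Pi.smul_apply, Sum.elim_inl, lift, smul_eq_mul, Pi.zero_apply]
      rw [hz]
      ring
    · simp [lift]
  · rintro ⟨p, hp, q, ⟨b, hb, rfl⟩, α, β, hα, hβ, hαβ, rfl⟩
    rw [mem_singleton_iff] at hp
    subst hp
    have hr : (α • (Sum.elim (0 : ι → ℝ) (fun _ => 1) : ι ⊕ Unit → ℝ) + β • lift b) (Sum.inr ()) =
        α := by
      simp [lift]
    refine ⟨by rw [hr]; exact ⟨hα, by linarith⟩, b, hb, fun i => ?_⟩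
    rw [hr]
    simp only [Pi.add_apply, Pi.smul_apply, Sum.elim_inl, lift, smul_eq_mul, Pi.zero_apply]
    have : β = 1 - α := by linarith
    rw [this]
    ring

theorem gTCEQ : TCEQ := fun _ _ B hB h0 =>
  ⟨fun a ha0 ha1 => klr_eq B hB h0 a ha0 ha1, tc_zero B hB h0⟩

end Pool.Agent.Helper52.PN
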