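import Pool.Agent.Helper82.PN.GoalsR

/-! Packet PN-TCVOL: the volume of the truncated cone. -/

open MeasureTheory Set
open scoped ENNReal Pointwise
open Pool.Agent.Helper47.AQ
open Pool.Agent.Helper82.PN

noncomputable section

namespace Pool.Agent.Helper52.PN

variable {ι : Type} [Fintype ι]

theorem lint_unit (G : (ι ⊕ Unit → ℝ) → ℝ≥0∞) (hG : Measurable G) :
    ∫⁻ z, G z = ∫⁻ w : ι → ℝ, ∫⁻ t : ℝ, G (Sum.elim w (fun _ => t)) := by
  rw [lint_sum G hG]
  refine lintegral_congr fun w => ?_
  have hu := volume_preserving_funUnique Unit ℝ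
  have hG' : Measurable fun y : Unit → ℝ => G (Sum.elim w y) :=
    hG.comp (measurable_elim.comp (measurable_const.prodMk measurable_id))
  have h := hu.symm.lintegral_comp hG'
  rw [← h]
  rfl

theorem meas_unit {α : Type} [MeasurableSpace α] (f : α → ι → ℝ) (g : α → ℝ)
    (hf : Measurable f) (hg : Measurable g) :
    Measurable fun a => (Sum.elim (f a) (fun _ => g a) : ι ⊕ Unit → ℝ) := by
  refine measurable_pi_lambda _ fun o => ?_
  cases o with
  | inl i => exact (measurable_pi_apply i).comp hf
  | inr j => exact hg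

theorem tc_compact (B : Set (ι → ℝ)) (hB : IsCompact B) (a : ℝ) : IsCompact (tc B a) := by
  have h : tc B a = (fun q : (ι → ℝ) × ℝ =>
      (Sum.elim ((1 - (1 - a) * q.2) • q.1) (fun _ => q.2) : ι ⊕ Unit → ℝ)) ''
        (B ×ˢ Icc (0 : ℝ) 1) := by
    ext z
    constructor
    · rintro ⟨hx, b, hb, hz⟩
      refine ⟨(b, z (Sum.inr ())), ⟨hb, hx⟩, ?_⟩
      funext o
      rcases o with i | u
      · exact (hz i).symm
      · rfl
    · rintro ⟨⟨b, x⟩, ⟨hb, hx⟩, rfl⟩
      exact ⟨hx, b, hb, fun i => rfl⟩
  rw [h]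
  refine (hB.prod isCompact_Icc).image ?_
  refine continuous_pi fun o => ?_
  rcases o with i | u
  · simp only [Sum.elim_inl, Pi.smul_apply, smul_eq_mul]
    exact (continuous_const.sub (continuous_const.mul continuous_snd)).mul
      ((continuous_apply i).comp continuous_fst)
  · simp only [Sum.elim_inr]
    exact continuous_snd

theorem int_pow (n : ℕ) (a : ℝ) (ha1 : a ≤ 1) :
    ∫ t in (0 : ℝ)..1, (1 - (1 - a) * t) ^ n =
      (∑ j ∈ Finset.range (n + 1), a ^ j) / ((n : ℝ) + 1) := by
  have hn : ((n : ℝ) + 1) ≠ 0 := by positivity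
  rcases eq_or_lt_of_le ha1 with rfl | h
  · simp only [sub_self, zero_mul, sub_zero, one_pow, intervalIntegral.integral_const, smul_eq_mul,
      mul_one, Finset.sum_const, Finset.card_range, nsmul_eq_mul]
    push_cast
    field_simp
  · have h1 : (1 - a) ≠ 0 := by
      have : 0 < 1 - a := by linarith
      exact this.ne'
    have hd : ∀ t ∈ uIcc (0 : ℝ) 1,
        HasDerivAt (fun t : ℝ => -(1 - (1 - a) * t) ^ (n + 1) / (((n : ℝ) + 1) * (1 - a)))
          ((1 - (1 - a) * t) ^ n) t := by
      intro t _
      have e1 : HasDerivAt (fun t : ℝ => 1 - (1 - a) * t) (-(1 - a)) t := by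
        have := ((hasDerivAt_id t).const_mul (1 - a)).const_sub 1
        simpa using this
      have e2 := ((e1.pow (n + 1)).neg).div_const (((n : ℝ) + 1) * (1 - a))
      refine e2.congr_deriv ?_
      simp only [Nat.add_sub_cancel]
      push_cast
      field_simp
    rw [intervalIntegral.integral_eq_sub_of_hasDerivAt hd]
    · rw [geom_sum_eq h.ne]
      have h2 : a - 1 ≠ 0 := by
        intro h3
        apply h1
        linarith
      have h4 : (1 - (1 - a) * 1) = a := by ring
      rw [h4]
      simp only [mul_zero, sub_zero, one_pow]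
      rw [div_div]
      have h5 : (a - 1) * ((n : ℝ) + 1) = -(((n : ℝ) + 1) * (1 - a)) := by ring
      rw [h5]
      field_simp
      ring
    · apply Continuous.intervalIntegrable
      fun_prop

theorem gTCVOL : TCVOL := by
  intro ι _ B a hB h0 ha0 ha1
  have hm := (tc_compact B hB.comp a).isClosed.measurableSet
  have hmi : Measurable ((tc B a).indicator fun _ => (1 : ℝ≥0∞)) :=
    measurable_const.indicator hm
  have h1 := lint_unit ((tc B a).indicator fun _ => (1 : ℝ≥0∞)) hmi
  rw [lintegral_indicator_const hm, one_mul] at h1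
  rw [h1, lintegral_lintegral_swap]
  swap
  · exact (hmi.comp (meas_unit _ _ measurable_fst measurable_snd)).aemeasurable
  have h2 : ∫⁻ t : ℝ, ∫⁻ w : ι → ℝ, (tc B a).indicator (fun _ => (1 : ℝ≥0∞))
      (Sum.elim w (fun _ => t)) = ∫⁻ t in Icc (0 : ℝ) 1,
        ENNReal.ofReal ((1 - (1 - a) * t) ^ Fintype.card ι) * volume B := by
    rw [← lintegral_indicator measurableSet_Icc]
    refine lintegral_congr fun t => ?_
    by_cases ht : t ∈ Icc (0 : ℝ) 1
    · rw [indicator_of_mem ht]
      have h3 : ∀ w : ι → ℝ, (tc B a).indicator (fun _ => (1 : ℝ≥0∞)) (Sum.elim w (fun _ => t)) =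
          ((1 - (1 - a) * t) • B).indicator (fun _ => (1 : ℝ≥0∞)) w := by
        intro w
        have h4 : (Sum.elim w (fun _ => t) : ι ⊕ Unit → ℝ) ∈ tc B a ↔
            w ∈ (1 - (1 - a) * t) • B := by
          constructor
          · rintro ⟨_, b, hb, hz⟩
            refine ⟨b, hb, ?_⟩
            funext i
            exact (hz i).symm
          · rintro ⟨b, hb, rfl⟩
            exact ⟨ht, b, hb, fun i => rfl⟩
        by_cases hw : w ∈ (1 - (1 - a) * t) • B
        · rw [indicator_of_mem hw, indicator_of_mem (h4.2 hw)]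
        · rw [indicator_of_notMem hw, indicator_of_notMem (fun h => hw (h4.1 h))]
      simp_rw [h3]
      have h5 : MeasurableSet ((1 - (1 - a) * t) • B) :=
        (hB.comp.smul _).isClosed.measurableSet
      have h6 : 0 ≤ 1 - (1 - a) * t := by
        have : (1 - a) * t ≤ 1 := by nlinarith [ht.1, ht.2]
        linarith
      rw [lintegral_indicator_const h5, one_mul, Measure.addHaar_smul,
        Module.finrank_fintype_fun_eq_card, abs_of_nonneg (pow_nonneg h6 _)]
    · rw [indicator_of_notMem ht]
      have h3 : ∀ w : ι → ℝ, (tc B a).indicator (fun _ => (1 : ℝ≥0∞))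
          (Sum.elim w (fun _ => t)) = 0 := by
        intro w
        refine indicator_of_notMem ?_ _
        rintro ⟨hx, _⟩
        exact ht hx
      simp [h3]
  rw [h2, lintegral_mul_const _ (by fun_prop)]
  have h7 : ∫⁻ t in Icc (0 : ℝ) 1, ENNReal.ofReal ((1 - (1 - a) * t) ^ Fintype.card ι) =
      ENNReal.ofReal ((∑ j ∈ Finset.range (Fintype.card ι + 1), a ^ j) /
        ((Fintype.card ι : ℝ) + 1)) := by
    rw [← int_pow _ a ha1, intervalIntegral.integral_of_le zero_le_one,
      ← integral_Icc_eq_integral_Ioc, ofReal_integral_eq_lintegral_ofReal]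
    · apply Continuous.integrableOn_Icc
      fun_prop
    · rw [Filter.EventuallyLE, ae_restrict_iff' measurableSet_Icc]
      refine Filter.Eventually.of_forall fun t ht => ?_
      have h6 : 0 ≤ 1 - (1 - a) * t := by
        have : (1 - a) * t ≤ 1 := by nlinarith [ht.1, ht.2]
        linarith
      exact pow_nonneg h6 _
  rw [h7, ENNReal.toReal_mul, ENNReal.toReal_ofReal (by positivity)]
  ring

end Pool.Agent.Helper52.PN
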